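import Pool.Agent.Helper67.NO.St1

/-!
# Project NO (MP_26be5b_ag), module GEN: consequences of stability
-/

set_option autoImplicit false

namespace Pool.Agent.Helper74.NO

open Pool.Agent.Helper67.NO

open Matrix

open scoped Matrix.Norms.Frobenius ContDiff Topology

variable {ι κ : Type} [Fintype ι] [DecidableEq ι] [Fintype κ] [DecidableEq κ]

theorem rai_pow {lev : κ → ℕ} {b : Matrix (ι ⊕ κ) (ι ⊕ κ) ℂ} (hb : Rai lev b) (n : ℕ) :
    ∀ p q, (b ^ n) p q ≠ 0 → lv lev p = lv lev q + n := by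
  induction n with
  | zero =>
    intro p q h
    rw [pow_zero, Matrix.one_apply] at h
    by_cases hpq : p = q
    · rw [hpq, add_zero]
    · rw [if_neg hpq] at h
      exact absurd rfl h
  | succ n ih =>
    intro p q h
    rw [pow_succ, Matrix.mul_apply] at h
    obtain ⟨r, -, hr⟩ := Finset.exists_ne_zero_of_sum_ne_zero h
    have h1 := ih p r (left_ne_zero_of_mul hr)
    have h2 := hb r q (right_ne_zero_of_mul hr)
    omega

theorem rai_nilp {lev : κ → ℕ} {b : Matrix (ι ⊕ κ) (ι ⊕ κ) ℂ} (hb : Rai lev b) :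
    ∃ N : ℕ, b ^ N = 0 := by
  refine ⟨(Finset.univ.sup (lv lev : ι ⊕ κ → ℕ)) + 1, ?_⟩
  ext p q
  rw [Matrix.zero_apply]
  by_contra h
  have h1 := rai_pow hb _ p q h
  have h2 : lv lev p ≤ Finset.univ.sup (lv lev : ι ⊕ κ → ℕ) := Finset.le_sup (Finset.mem_univ p)
  omega

theorem split_n {b : Matrix (ι ⊕ κ) (ι ⊕ κ) ℂ}
    (hs : ∀ w : ι ⊕ κ → ℂ, (∀ p : ι, w (.inl p) = 0) → ∃ v, b *ᵥ v = w)
    (K : Submodule ℂ (ι ⊕ κ → ℂ)) (h0 : ∀ w : ι ⊕ κ → ℂ, (∀ q : κ, w (.inr q) = 0) → w ∈ K)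
    (hK : ∀ w ∈ K, b *ᵥ w ∈ K) (n : ℕ) :
    ∀ w : ι ⊕ κ → ℂ, ∃ k ∈ K, ∃ v, w = k + (b ^ n) *ᵥ v := by
  have hKn : ∀ (m : ℕ), ∀ w ∈ K, (b ^ m) *ᵥ w ∈ K := by
    intro m
    induction m with
    | zero =>
      intro w hw
      rw [pow_zero, Matrix.one_mulVec]
      exact hw
    | succ m ih =>
      intro w hw
      rw [pow_succ, ← Matrix.mulVec_mulVec]
      exact ih _ (hK w hw)
  induction n with
  | zero =>
    intro w
    refine ⟨0, K.zero_mem, w, ?_⟩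
    rw [pow_zero, Matrix.one_mulVec, zero_add]
  | succ n ih =>
    intro w
    obtain ⟨k, hk, v, hv⟩ := ih w
    let v0 : ι ⊕ κ → ℂ := Sum.elim (fun p => v (.inl p)) (fun _ => 0)
    let v1 : ι ⊕ κ → ℂ := Sum.elim (fun _ => 0) (fun q => v (.inr q))
    have hv01 : v = v0 + v1 := by
      funext x
      cases x with
      | inl p => simp [v0, v1]
      | inr q => simp [v0, v1]
    obtain ⟨v', hv'⟩ := hs v1 (fun p => rfl)
    refine ⟨k + (b ^ n) *ᵥ v0, K.add_mem hk (hKn n _ (h0 v0 fun q => rfl)), v', ?_⟩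
    rw [hv, hv01, Matrix.mulVec_add, ← hv', Matrix.mulVec_mulVec, ← pow_succ, add_assoc]

theorem gen1 {lev : κ → ℕ} {a b : Matrix (ι ⊕ κ) (ι ⊕ κ) ℂ} (hb : Rai lev b) (hst : Stab a b)
    (K : Submodule ℂ (ι ⊕ κ → ℂ)) (h0 : ∀ w : ι ⊕ κ → ℂ, (∀ q : κ, w (.inr q) = 0) → w ∈ K)
    (hK : ∀ w ∈ K, b *ᵥ w ∈ K) : K = ⊤ := by
  obtain ⟨N, hN⟩ := rai_nilp hb
  rw [eq_top_iff]
  intro w _
  obtain ⟨k, hk, v, hv⟩ := split_n hst.2 K h0 hK N w
  rw [hN, Matrix.zero_mulVec, add_zero] at hv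
  rw [hv]
  exact hk

theorem pGEN : StGEN := by
  intro ι κ _ _ _ _ lev a b hb hst
  refine ⟨fun K h0 hK => gen1 hb hst K h0 hK, ?_⟩
  intro θ hθ
  have hcomm : bd (0 : Matrix ι ι ℂ) θ * b = b * bd 0 θ := by
    unfold br at hθ
    exact sub_eq_zero.1 hθ
  have htop := gen1 hb hst (LinearMap.ker (Matrix.mulVecLin (bd (0 : Matrix ι ι ℂ) θ))) (by
    intro w hw
    rw [LinearMap.mem_ker, Matrix.mulVecLin_apply]
    funext x
    cases x with
    | inl p =>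
      simp only [bd, Matrix.mulVec, dotProduct, Fintype.sum_sum_type, Matrix.fromBlocks_apply₁₁,
        Matrix.fromBlocks_apply₁₂, Matrix.zero_apply, zero_mul, Finset.sum_const_zero, add_zero,
        Pi.zero_apply]
    | inr p =>
      simp only [bd, Matrix.mulVec, dotProduct, Fintype.sum_sum_type, Matrix.fromBlocks_apply₂₁,
        Matrix.fromBlocks_apply₂₂, Matrix.zero_apply, zero_mul, Finset.sum_const_zero, zero_add,
        hw, mul_zero, Pi.zero_apply]) (by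
    intro w hw
    rw [LinearMap.mem_ker, Matrix.mulVecLin_apply] at hw ⊢
    rw [Matrix.mulVec_mulVec, hcomm, ← Matrix.mulVec_mulVec, hw, Matrix.mulVec_zero])
  have hzero : bd (0 : Matrix ι ι ℂ) θ = 0 := by
    ext x y
    have h1 : (Pi.single y 1 : ι ⊕ κ → ℂ) ∈ LinearMap.ker (Matrix.mulVecLin (bd (0 : Matrix ι ι ℂ) θ)) := by
      rw [htop]
      exact Submodule.mem_top
    rw [LinearMap.mem_ker, Matrix.mulVecLin_apply, Matrix.mulVec_single_one] at h1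
    exact congrFun h1 x
  ext p q
  have h2 := congrFun (congrFun hzero (.inr p)) (.inr q)
  rw [Matrix.zero_apply] at h2 ⊢
  exact h2

end Pool.Agent.Helper74.NO
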